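import Mathlib

/-!
Complete homogeneous sums as coefficients of a power series, the Jacobi-Trudi factorisation of
alternants, and the averaged fixed-point formula for complete homogeneous sums.
-/

namespace Pool.Agent.Lib.SymRep

open Finset

/-- generating series of complete homogeneous sums of the family `y` -/
noncomputable def hser {R ι : Type*} [CommRing R] [Fintype ι] (y : ι → R) : PowerSeries R :=
  ∏ i, PowerSeries.mk fun k => y i ^ k

/-- complete homogeneous sum of degree `a` -/
noncomputable def hh {R ι : Type*} [CommRing R] [Fintype ι] (y : ι → R) (a : ℕ) : R :=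
  PowerSeries.coeff a (hser y)

theorem hh_eq {R ι : Type*} [CommRing R] [Fintype ι] [DecidableEq ι] (y : ι → R) (a : ℕ) :
    hh y a = ∑ A ∈ finsuppAntidiag univ a, ∏ i, y i ^ A i := by
  unfold hh hser
  rw [PowerSeries.coeff_prod]
  simp

theorem hh_zero {R ι : Type*} [CommRing R] [Fintype ι] (y : ι → R) : hh y 0 = 1 := by
  unfold hh hser
  rw [PowerSeries.coeff_zero_eq_constantCoeff, map_prod]
  simp

theorem geom_mul {R : Type*} [CommRing R] (x : R) :
    (PowerSeries.mk fun k => x ^ k) * (1 - PowerSeries.C x * PowerSeries.X) = 1 := by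
  ext k
  rw [mul_sub, mul_one, ← mul_assoc, map_sub]
  cases k with
  | zero => simp
  | succ k => simp [PowerSeries.coeff_succ_mul_X, pow_succ, PowerSeries.coeff_one]

section JT

variable {R : Type*} [CommRing R] {m : ℕ} (y : Fin m → R)

/-- the polynomial `∏_{j ≠ k} (1 - y_j t)` -/
noncomputable def epol (k : Fin m) : Polynomial R :=
  ∏ j ∈ univ.erase k, (1 - Polynomial.C (y j) * Polynomial.X)

theorem epol_coeff_eq_zero (k : Fin m) (i : ℕ) (hi : m ≤ i) : (epol y k).coeff i = 0 := by
  apply Polynomial.coeff_eq_zero_of_natDegree_lt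
  have h1 : (epol y k).natDegree ≤ ∑ j ∈ univ.erase k, 1 := by
    refine (Polynomial.natDegree_prod_le _ _).trans (Finset.sum_le_sum fun j _ => ?_)
    compute_degree
  have h2 : 0 < m := k.pos
  simp only [sum_const, card_erase_of_mem (mem_univ k), card_univ, Fintype.card_fin,
    smul_eq_mul, mul_one] at h1
  omega

theorem hser_mul_epol (k : Fin m) :
    hser y * (epol y k : PowerSeries R) = PowerSeries.mk fun a => y k ^ a := by
  unfold hser epol
  rw [← Finset.mul_prod_erase univ _ (mem_univ k), mul_assoc]
  have : ((∏ j ∈ univ.erase k, (1 - Polynomial.C (y j) * Polynomial.X) : Polynomial R) :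
      PowerSeries R) = ∏ j ∈ univ.erase k, (1 - PowerSeries.C (y j) * PowerSeries.X) := by
    rw [← Polynomial.coeToPowerSeries.ringHom_apply, map_prod]
    refine Finset.prod_congr rfl fun j _ => ?_
    simp [Polynomial.coeToPowerSeries.ringHom_apply]
  rw [this, ← Finset.prod_mul_distrib, Finset.prod_congr rfl fun j _ => geom_mul (y j)]
  simp

/-- truncated complete homogeneous sum `h_{a-i}` -/
noncomputable def hsub (a i : ℕ) : R := if i ≤ a then hh y (a - i) else 0

theorem pow_eq_sum (k : Fin m) (a : ℕ) :
    y k ^ a = ∑ i : Fin m, (epol y k).coeff i * hsub y a i := by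
  have h := congrArg (PowerSeries.coeff a) (hser_mul_epol y k)
  rw [PowerSeries.coeff_mk, mul_comm, PowerSeries.coeff_mul,
    Finset.Nat.sum_antidiagonal_eq_sum_range_succ_mk] at h
  rw [← h, Fin.sum_univ_eq_sum_range (fun i => (epol y k).coeff i * hsub y a i) m]
  simp only [Polynomial.coeff_coe]
  have e1 : ∑ i ∈ range (a + 1), (epol y k).coeff i * PowerSeries.coeff (a - i) (hser y) =
      ∑ i ∈ range (a + 1 + m), (epol y k).coeff i * hsub y a i := by
    rw [← Finset.sum_subset (s₁ := range (a + 1)) (s₂ := range (a + 1 + m))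
      (by intro x; simp; omega)]
    · refine Finset.sum_congr rfl fun i hi => ?_
      rw [hsub, if_pos (by simpa [Nat.lt_succ_iff] using hi), hh]
    · intro i _ hi
      rw [hsub, if_neg (by simpa [Nat.lt_succ_iff] using hi), mul_zero]
  rw [e1, ← Finset.sum_subset (s₁ := range m) (s₂ := range (a + 1 + m))
    (by intro x; simp; omega)]
  intro i _ hi
  rw [epol_coeff_eq_zero y k i (by simpa using hi), zero_mul]

/-- the alternant `det (y_k ^ l_j)` -/
noncomputable def alt (l : Fin m → ℕ) : R := (Matrix.of fun k j => y k ^ l j).det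

theorem alt_eq (l : Fin m → ℕ) :
    alt y l = (Matrix.of fun k (i : Fin m) => (epol y k).coeff i).det *
      (Matrix.of fun (i : Fin m) j => hsub y (l j) i).det := by
  rw [← Matrix.det_mul, alt]
  congr 1
  ext k j
  rw [Matrix.of_apply, Matrix.mul_apply, pow_eq_sum]
  rfl

/-- Jacobi-Trudi -/
theorem jacobi_trudi (l : Fin m → ℕ) :
    alt y (fun i => i) * (Matrix.of fun (i : Fin m) j => hsub y (l j) i).det = alt y l := by
  rw [alt_eq y l, alt_eq y (fun i => i)]
  have : (Matrix.of fun (i : Fin m) (j : Fin m) => hsub y (j : ℕ) i).det = 1 := by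
    rw [Matrix.det_of_isUpperTriangular]
    · simp [hsub, hh_zero]
    · intro i j hij
      have : ¬ (i : ℕ) ≤ j := not_le.2 hij
      rw [Matrix.of_apply, hsub, if_neg this]
  rw [this, mul_one]

end JT

section Count

variable {n : ℕ} {ι : Type*} [Fintype ι] [DecidableEq ι]

/-- the content of a function: the sizes of its fibres -/
noncomputable def content (F : Fin n → ι) : ι →₀ ℕ := ∑ i, Finsupp.single (F i) 1

omit [Fintype ι] in
theorem content_apply (F : Fin n → ι) (a : ι) :
    content F a = (univ.filter fun i => F i = a).card := by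
  unfold content
  rw [Finsupp.finsetSum_apply, Finset.card_filter]
  refine Finset.sum_congr rfl fun i _ => ?_
  rw [Finsupp.single_apply]

omit [Fintype ι] [DecidableEq ι] in
theorem prod_X_eq (R : Type*) [CommSemiring R] (F : Fin n → ι) :
    ∏ i, (MvPolynomial.X (F i) : MvPolynomial ι R) = MvPolynomial.monomial (content F) 1 := by
  unfold content
  rw [MvPolynomial.monomial_sum_one]
  rfl

omit [DecidableEq ι] in
theorem prod_eq_content {R : Type*} [CommSemiring R] (y : ι → R) (F : Fin n → ι) :
    ∏ i, y (F i) = ∏ a, y a ^ content F a := by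
  have h := congrArg (MvPolynomial.eval y) (prod_X_eq R F)
  rw [map_prod, MvPolynomial.eval_monomial, one_mul, Finsupp.prod_fintype _ _ (by simp)] at h
  simpa using h

theorem sum_content (F : Fin n → ι) : ∑ a, content F a = n := by
  simp only [content_apply]
  rw [← Finset.card_eq_sum_card_fiberwise (s := univ) (t := univ) (f := F) (by simp)]
  simp

omit [Fintype ι] [DecidableEq ι] in
theorem content_comp (F : Fin n → ι) (σ : Equiv.Perm (Fin n)) : content (F ∘ σ) = content F := by
  unfold content
  exact Equiv.sum_comp σ (fun i => Finsupp.single (F i) 1)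

theorem card_content (A : ι →₀ ℕ) (hA : ∑ a, A a = n) :
    (∏ a, (A a).factorial) * (univ.filter fun F : Fin n → ι => content F = A).card =
      n.factorial := by
  have h := MvPolynomial.coeff_sum_X_pow_of_fintype (R := ℕ) A n
  rw [Fintype.sum_pow, Finsupp.sum_fintype _ _ (by simp), if_pos hA] at h
  simp only [prod_X_eq, MvPolynomial.coeff_sum, MvPolynomial.coeff_monomial] at h
  rw [Finset.card_filter, h, Nat.cast_id,
    Finsupp.multinomial_eq_of_support_subset (subset_univ _), Nat.multinomial_spec, hA]

theorem card_stab (F : Fin n → ι) :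
    (univ.filter fun σ : Equiv.Perm (Fin n) => F ∘ σ = F).card = ∏ a, (content F a).factorial := by
  rw [← Fintype.card_subtype, DomMulAct.stabilizer_card]
  refine Finset.prod_congr rfl fun a _ => ?_
  rw [content_apply, Fintype.card_subtype]

/-- averaging the fixed functions over all permutations gives the complete homogeneous sum -/
theorem sum_fixed {R : Type*} [CommRing R] (y : ι → R) :
    ∑ σ : Equiv.Perm (Fin n), ∑ F ∈ univ.filter (fun F : Fin n → ι => F ∘ σ = F), ∏ i, y (F i) =
      n.factorial * hh y n := by
  simp only [Finset.sum_filter]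
  rw [Finset.sum_comm, hh_eq, Finset.mul_sum]
  simp only [← Finset.sum_filter, Finset.sum_const, card_stab, prod_eq_content, nsmul_eq_mul]
  rw [← Finset.sum_fiberwise_of_maps_to (s := univ) (t := finsuppAntidiag univ n) (g := content)]
  · refine Finset.sum_congr rfl fun A hA => ?_
    rw [mem_finsuppAntidiag] at hA
    rw [Finset.sum_congr rfl (g := fun _ => ((∏ a, (A a).factorial : ℕ) : R) * ∏ a, y a ^ A a)]
    · rw [Finset.sum_const, nsmul_eq_mul, ← mul_assoc, ← Nat.cast_mul, mul_comm (Finset.card _),
        card_content A hA.1]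
    · intro F hF
      rw [(Finset.mem_filter.1 hF).2]
  · intro F _
    rw [mem_finsuppAntidiag]
    exact ⟨sum_content F, subset_univ _⟩

end Count

end Pool.Agent.Lib.SymRep
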