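import Pool.Agent.Lib.SymRep.Virtual
import Pool.Agent.Lib.SymRep.JacobiTrudi

-- merged part: Pool.Agent.Lib.SymRep.Frobenius
section
/-!
Frobenius' construction of the irreducible characters of the symmetric group and the degree
formula `n! ∏_{i<j} (l_j - l_i) / ∏ l_i!`.
-/

namespace Pool.Agent.Lib.SymRep

open Finset MvPolynomial CategoryTheory

variable {n : ℕ}

/-- the power sum product attached to a permutation, as a sum over the functions it fixes -/
noncomputable def psum (m : ℕ) (R : Type*) [CommRing R] (σ : Equiv.Perm (Fin n)) :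
    MvPolynomial (Fin m) R :=
  ∑ F ∈ univ.filter (fun F : Fin n → Fin m => F ∘ σ = F), ∏ i, X (F i)

/-- number of functions of content `α` fixed by `σ` -/
noncomputable def psi {m : ℕ} (α : Fin m →₀ ℕ) (σ : Equiv.Perm (Fin n)) : ℕ :=
  (univ.filter fun F : Fin n → Fin m => F ∘ σ = F ∧ content F = α).card

variable {m : ℕ}

theorem coeff_psum (R : Type*) [CommRing R] (α : Fin m →₀ ℕ) (σ : Equiv.Perm (Fin n)) :
    coeff α (psum m R σ) = psi α σ := by
  unfold psum psi
  simp only [prod_X_eq, coeff_sum, coeff_monomial]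
  rw [← Finset.filter_filter, Finset.card_filter]
  push_cast
  rfl

theorem comp_inv_eq_iff {β : Type*} (F : Fin n → β) (σ : Equiv.Perm (Fin n)) :
    F ∘ ⇑(σ⁻¹) = F ↔ F ∘ σ = F := by
  constructor
  · intro h
    ext i
    have := congrFun h (σ i)
    simpa using this.symm
  · intro h
    ext i
    have := congrFun h (σ⁻¹ i)
    simpa using this.symm

theorem psi_inv (α : Fin m →₀ ℕ) (σ : Equiv.Perm (Fin n)) : psi α σ⁻¹ = psi α σ := by
  unfold psi
  simp only [comp_inv_eq_iff]

theorem psi_mem_virt (α : Fin m →₀ ℕ) :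
    (fun σ : Equiv.Perm (Fin n) => (psi α σ : ℂ)) ∈ virt (Equiv.Perm (Fin n)) := by
  classical
  let a : Equiv.Perm (Fin n) →* Equiv.Perm {F : Fin n → Fin m // content F = α} :=
    { toFun := fun σ =>
        { toFun := fun F => ⟨F.1 ∘ ⇑(σ⁻¹), by rw [content_comp, F.2]⟩
          invFun := fun F => ⟨F.1 ∘ σ, by rw [content_comp, F.2]⟩
          left_inv := fun F => by ext i; simp
          right_inv := fun F => by ext i; simp }
      map_one' := by ext F i; simp
      map_mul' := fun σ τ => by ext F i; simp }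
  convert perm_char_mem_virt a using 3 with σ
  unfold psi
  rw [← Fintype.card_subtype, ← Fintype.card_subtype]
  refine Fintype.card_congr
    { toFun := fun F => ⟨⟨F.1, F.2.2⟩, Subtype.ext ((comp_inv_eq_iff _ _).2 F.2.1)⟩
      invFun := fun F => ⟨F.1.1, (comp_inv_eq_iff _ _).1 (congrArg Subtype.val F.2), F.1.2⟩
      left_inv := fun _ => rfl
      right_inv := fun _ => rfl }

theorem hh_two (β : Fin m →₀ ℕ) (hβ : ∑ j, β j = n) :
    coeff β (hh (fun p : Fin m × Fin m =>
      (C (X p.1) * X p.2 : MvPolynomial (Fin m) (MvPolynomial (Fin m) ℂ))) n) =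
      ∏ j, hh (X : Fin m → MvPolynomial (Fin m) ℂ) (β j) := by
  have h1 : hser (fun p : Fin m × Fin m =>
      (C (X p.1) * X p.2 : MvPolynomial (Fin m) (MvPolynomial (Fin m) ℂ))) =
      ∏ j : Fin m, PowerSeries.mk fun k =>
        (monomial (Finsupp.single j k) (hh (X : Fin m → MvPolynomial (Fin m) ℂ) k)) := by
    unfold hser
    rw [Fintype.prod_prod_type_right]
    refine Finset.prod_congr rfl fun j _ => ?_
    have h2 : ∀ i : Fin m, (PowerSeries.mk fun k =>
        (C (X i) * X j : MvPolynomial (Fin m) (MvPolynomial (Fin m) ℂ)) ^ k) =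
        PowerSeries.rescale (X j) (PowerSeries.map C (PowerSeries.mk fun k => X i ^ k)) := by
      intro i
      ext1 k
      simp [PowerSeries.coeff_rescale, mul_pow, mul_comm]
    simp only [h2]
    rw [← map_prod, ← map_prod]
    ext1 k
    rw [PowerSeries.coeff_rescale, PowerSeries.coeff_map, PowerSeries.coeff_mk, X_pow_eq_monomial,
      mul_comm, C_mul_monomial, mul_one]
    rfl
  rw [hh, h1, PowerSeries.coeff_prod, coeff_sum]
  simp only [PowerSeries.coeff_mk]
  have h3 : ∀ γ : Fin m →₀ ℕ, ∏ j, (monomial (Finsupp.single j (γ j))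
      (hh (X : Fin m → MvPolynomial (Fin m) ℂ) (γ j))) =
      monomial γ (∏ j, hh (X : Fin m → MvPolynomial (Fin m) ℂ) (γ j)) := by
    intro γ
    rw [← monomial_sum_prod, Finsupp.univ_sum_single]
  simp only [h3, coeff_monomial]
  rw [Finset.sum_ite_eq' (finsuppAntidiag univ n) β, if_pos]
  rw [mem_finsuppAntidiag]
  exact ⟨hβ, subset_univ _⟩

theorem sum_psi_psum (β : Fin m →₀ ℕ) (hβ : ∑ j, β j = n) :
    ∑ σ : Equiv.Perm (Fin n), C (psi β σ : ℂ) * psum m ℂ σ =
      n.factorial * ∏ j, hh (X : Fin m → MvPolynomial (Fin m) ℂ) (β j) := by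
  have h := congrArg (coeff β) (sum_fixed (n := n) (fun p : Fin m × Fin m =>
      (C (X p.1) * X p.2 : MvPolynomial (Fin m) (MvPolynomial (Fin m) ℂ))))
  rw [← map_natCast (C : MvPolynomial (Fin m) ℂ →+* _), coeff_C_mul, hh_two β hβ, coeff_sum] at h
  rw [← h]
  refine Finset.sum_congr rfl fun σ _ => ?_
  have h2 : ∑ F ∈ univ.filter (fun F : Fin n → Fin m × Fin m => F ∘ σ = F),
      ∏ i, (C (X (F i).1) * X (F i).2 : MvPolynomial (Fin m) (MvPolynomial (Fin m) ℂ)) =
      C (psum m ℂ σ) * psum m (MvPolynomial (Fin m) ℂ) σ := by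
    unfold psum
    rw [map_sum, Finset.sum_mul_sum, ← Finset.sum_product']
    refine Finset.sum_bij' (fun F _ => (Prod.fst ∘ F, Prod.snd ∘ F))
      (fun p _ => fun i => (p.1 i, p.2 i)) ?_ ?_ ?_ ?_ ?_
    · intro F hF
      simp only [mem_filter, mem_univ, true_and, mem_product] at hF ⊢
      constructor <;> rw [Function.comp_assoc, hF]
    · intro p hp
      simp only [mem_filter, mem_univ, true_and, mem_product] at hp ⊢
      ext i
      · exact congrArg Fin.val (congrFun hp.1 i)
      · exact congrArg Fin.val (congrFun hp.2 i)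
    · intro F _; rfl
    · intro p _; rfl
    · intro F _
      rw [Finset.prod_mul_distrib, map_prod]
      rfl
  rw [h2, coeff_C_mul, coeff_psum, mul_comm, map_natCast]

/-- exponent vector as a finitely supported function -/
noncomputable abbrev toF (l : Fin m → ℕ) : Fin m →₀ ℕ := Finsupp.equivFunOnFinite.symm l

/-- the staircase `(0, 1, …, m-1)` -/
abbrev stair (m : ℕ) : Fin m → ℕ := fun i => i

theorem alt_X_eq (l : Fin m → ℕ) :
    alt (X : Fin m → MvPolynomial (Fin m) ℂ) l =
      ∑ w : Equiv.Perm (Fin m), monomial (toF (l ∘ w)) ((Equiv.Perm.sign w : ℤ) : ℂ) := by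
  unfold alt
  rw [← Matrix.det_transpose, Matrix.det_apply']
  refine Finset.sum_congr rfl fun w _ => ?_
  simp only [Matrix.transpose_apply, Matrix.of_apply, X_pow_eq_monomial]
  rw [← monomial_sum_one, ← map_intCast (C : ℂ →+* MvPolynomial (Fin m) ℂ), C_mul_monomial,
    mul_one]
  congr 2
  ext k
  simp [Finsupp.finsetSum_apply, Finsupp.single_apply]

/-- Frobenius' virtual character attached to the exponent vector `l` -/
noncomputable def chi (n : ℕ) (l : Fin m → ℕ) (σ : Equiv.Perm (Fin n)) : ℂ :=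
  coeff (toF l) (alt X (stair m) * psum m ℂ σ)

theorem chi_eq (l : Fin m → ℕ) (σ : Equiv.Perm (Fin n)) :
    chi n l σ = ∑ w : Equiv.Perm (Fin m), ((Equiv.Perm.sign w : ℤ) : ℂ) *
      if (∀ j, (w j : ℕ) ≤ l j) then (psi (toF fun j => l j - w j) σ : ℂ) else 0 := by
  unfold chi
  rw [alt_X_eq, Finset.sum_mul, coeff_sum]
  refine Finset.sum_congr rfl fun w _ => ?_
  rw [coeff_monomial_mul', coeff_psum]
  have : toF (stair m ∘ w) ≤ toF l ↔ ∀ j, (w j : ℕ) ≤ l j := by
    simp [Finsupp.le_def]
  have h2 : toF l - toF (stair m ∘ w) = toF fun j => l j - w j := by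
    ext j; simp
  simp only [this, h2, mul_ite, mul_zero]

theorem chi_inv (l : Fin m → ℕ) (σ : Equiv.Perm (Fin n)) : chi n l σ⁻¹ = chi n l σ := by
  simp only [chi_eq, psi_inv]

theorem chi_mem_virt (l : Fin m → ℕ) : chi n l ∈ virt (Equiv.Perm (Fin n)) := by
  have : chi n l = ∑ w : Equiv.Perm (Fin m), (Equiv.Perm.sign w : ℤ) •
      if (∀ j, (w j : ℕ) ≤ l j) then
        (fun σ : Equiv.Perm (Fin n) => (psi (toF fun j => l j - w j) σ : ℂ)) else 0 := by
    ext σ
    rw [chi_eq, Finset.sum_apply]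
    refine Finset.sum_congr rfl fun w _ => ?_
    split_ifs <;> simp
  rw [this]
  refine Submodule.sum_mem _ fun w _ => Submodule.smul_mem _ _ ?_
  split_ifs
  · exact psi_mem_virt _
  · exact zero_mem _

/-- the Frobenius characteristic of a function on the symmetric group -/
noncomputable def frob (m : ℕ) (φ : Equiv.Perm (Fin n) → ℂ) : MvPolynomial (Fin m) ℂ :=
  ∑ σ, C ((n.factorial : ℂ)⁻¹ * φ σ) * psum m ℂ σ

theorem ip_chi (φ : Equiv.Perm (Fin n) → ℂ) (l : Fin m → ℕ) :
    ip φ (chi n l) = coeff (toF l) (alt X (stair m) * frob m φ) := by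
  unfold ip frob
  rw [Finset.mul_sum, Finset.mul_sum, coeff_sum, Nat.card_eq_fintype_card, Fintype.card_perm,
    Fintype.card_fin]
  refine Finset.sum_congr rfl fun σ _ => ?_
  rw [chi_inv, mul_left_comm (alt _ _), coeff_C_mul, mul_assoc]
  rfl

theorem frob_chi (l : Fin m → ℕ) (hl : ∑ j, l j = n + ∑ j, stair m j) :
    frob m (chi n l) = (Matrix.of fun (i : Fin m) j =>
      hsub (X : Fin m → MvPolynomial (Fin m) ℂ) (l j) i).det := by
  have hn : (n.factorial : ℂ) ≠ 0 := by exact_mod_cast n.factorial_ne_zero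
  unfold frob
  simp only [chi_eq, Finset.mul_sum, map_sum, Finset.sum_mul]
  rw [Finset.sum_comm, Matrix.det_apply']
  refine Finset.sum_congr rfl fun w _ => ?_
  simp only [Matrix.of_apply, hsub]
  by_cases hw : ∀ j, (w j : ℕ) ≤ l j
  · simp only [hw, if_true, implies_true]
    have hs : ∑ j, (toF fun j => l j - w j) j = n := by
      have e1 : ∑ j, (l j - w j) + ∑ j, (w j : ℕ) = ∑ j, l j := by
        rw [← Finset.sum_add_distrib]
        exact Finset.sum_congr rfl fun j _ => Nat.sub_add_cancel (hw j)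
      have e2 : ∑ j, (w j : ℕ) = ∑ j, stair m j := Equiv.sum_comp w (stair m)
      simp only [Finsupp.equivFunOnFinite_symm_apply_apply]
      omega
    have h := sum_psi_psum (n := n) _ hs
    simp only [Finsupp.equivFunOnFinite_symm_apply_apply] at h
    simp only [map_mul, mul_assoc]
    rw [← Finset.mul_sum, ← Finset.mul_sum, h, ← map_natCast (C : ℂ →+* MvPolynomial (Fin m) ℂ),
      mul_left_comm, ← mul_assoc (C (n.factorial : ℂ)⁻¹), ← map_mul, inv_mul_cancel₀ hn, map_one,
      one_mul, map_intCast]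
  · simp only [hw, if_false, mul_zero, map_zero, zero_mul, Finset.sum_const_zero]
    push Not at hw
    obtain ⟨j, hj⟩ := hw
    rw [Finset.prod_eq_zero (mem_univ j) (if_neg (not_le.2 hj)), mul_zero]

theorem coeff_alt_self (l : Fin m → ℕ) (hl : Function.Injective l) :
    coeff (toF l) (alt (X : Fin m → MvPolynomial (Fin m) ℂ) l) = 1 := by
  rw [alt_X_eq, coeff_sum, Finset.sum_eq_single 1]
  · simp
  · intro w _ hw
    rw [coeff_monomial, if_neg]
    intro h
    apply hw
    ext j
    have : l (w j) = l j := by simpa using DFunLike.congr_fun h j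
    rw [hl this]
    rfl
  · simp

theorem ip_chi_self (l : Fin m → ℕ) (hl : Function.Injective l)
    (hs : ∑ j, l j = n + ∑ j, stair m j) : ip (chi n l) (chi n l) = 1 := by
  rw [ip_chi, frob_chi l hs, jacobi_trudi, coeff_alt_self l hl]

theorem rename_psum (w : Equiv.Perm (Fin m)) (σ : Equiv.Perm (Fin n)) :
    rename w (psum m ℂ σ) = psum m ℂ σ := by
  unfold psum
  simp only [map_sum, map_prod, rename_X]
  refine Finset.sum_bij' (fun F _ => w ∘ F) (fun F _ => ⇑(w⁻¹) ∘ F) ?_ ?_ ?_ ?_ ?_
  · intro F hF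
    simp only [mem_filter, mem_univ, true_and] at hF ⊢
    rw [Function.comp_assoc, hF]
  · intro F hF
    simp only [mem_filter, mem_univ, true_and] at hF ⊢
    rw [Function.comp_assoc, hF]
  · intro F _; ext i; simp
  · intro F _; ext i; simp
  · intro F _; rfl

theorem rename_alt (w : Equiv.Perm (Fin m)) (l : Fin m → ℕ) :
    rename w (alt (X : Fin m → MvPolynomial (Fin m) ℂ) l) =
      C ((Equiv.Perm.sign w : ℤ) : ℂ) * alt X l := by
  unfold alt
  rw [AlgHom.map_det, map_intCast, ← Matrix.det_permute]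
  congr 1
  ext1 i j
  simp

theorem psum_homogeneous (σ : Equiv.Perm (Fin n)) : (psum m ℂ σ).IsHomogeneous n := by
  unfold psum
  refine IsHomogeneous.sum _ _ _ fun F _ => ?_
  have := IsHomogeneous.prod univ (fun i => (X (F i) : MvPolynomial (Fin m) ℂ)) (fun _ => 1)
    (fun i _ => isHomogeneous_X ℂ (F i))
  simpa using this

theorem alt_homogeneous (l : Fin m → ℕ) :
    (alt (X : Fin m → MvPolynomial (Fin m) ℂ) l).IsHomogeneous (∑ j, l j) := by
  rw [alt_X_eq]
  refine IsHomogeneous.sum _ _ _ fun w _ => isHomogeneous_monomial _ ?_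
  rw [Finsupp.degree_eq_sum]
  simpa using Equiv.sum_comp w l

theorem frob_eq_zero (φ : Equiv.Perm (Fin n) → ℂ)
    (h : ∀ l : Fin m → ℕ, StrictMono l → ∑ j, l j = n + ∑ j, stair m j → ip φ (chi n l) = 0) :
    frob m φ = 0 := by
  have hD : alt (X : Fin m → MvPolynomial (Fin m) ℂ) (stair m) ≠ 0 := by
    intro h0
    have := coeff_alt_self (stair m) Fin.val_injective
    rw [h0] at this
    simp at this
  by_contra hne
  set Q := alt (X : Fin m → MvPolynomial (Fin m) ℂ) (stair m) * frob m φ with hQ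
  have hQ0 : Q ≠ 0 := mul_ne_zero hD hne
  have hren : ∀ w : Equiv.Perm (Fin m), rename w Q = C ((Equiv.Perm.sign w : ℤ) : ℂ) * Q := by
    intro w
    rw [hQ, map_mul, rename_alt, mul_assoc]
    congr 2
    unfold frob
    simp only [map_sum, map_mul, rename_C, rename_psum]
  have hco : ∀ (w : Equiv.Perm (Fin m)) (l : Fin m → ℕ),
      coeff (toF (l ∘ w)) Q = ((Equiv.Perm.sign w : ℤ) : ℂ) * coeff (toF l) Q := by
    intro w l
    rw [← coeff_C_mul, ← hren, ← coeff_rename_mapDomain w w.injective]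
    congr 1
    ext j
    rw [Finsupp.mapDomain_equiv_apply]
    simp
  have hhom : Q.IsHomogeneous (∑ j, stair m j + n) := by
    refine (alt_homogeneous _).mul ?_
    unfold frob
    exact IsHomogeneous.sum _ _ _ fun σ _ => (psum_homogeneous σ).C_mul _
  obtain ⟨α, hα⟩ := ne_zero_iff.1 hQ0
  have hα' : toF α = α := by ext j; simp
  have hinj : Function.Injective α := by
    intro i j hij
    by_contra hne'
    have h1 := hco (Equiv.swap i j) α
    have h2 : (α : Fin m → ℕ) ∘ Equiv.swap i j = α := by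
      ext k
      simp only [Function.comp_apply, Equiv.swap_apply_def]
      split_ifs with h3 h4
      · rw [h3, hij]
      · rw [h4, hij]
      · rfl
    rw [h2, hα', Equiv.Perm.sign_swap hne'] at h1
    apply hα
    simp only [Units.val_neg, Units.val_one, Int.reduceNeg, Int.cast_neg, Int.cast_one,
      neg_mul, one_mul] at h1
    linear_combination h1 / 2
  have hmono : StrictMono (α ∘ Tuple.sort α) :=
    (Tuple.monotone_sort α).strictMono_of_injective (hinj.comp (Tuple.sort α).injective)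
  have hsum : ∑ j, (α ∘ Tuple.sort α) j = n + ∑ j, stair m j := by
    have h1 : α.degree = ∑ j, stair m j + n := by
      by_contra h1
      exact hα (hhom.coeff_eq_zero h1)
    rw [Finsupp.degree_eq_sum] at h1
    rw [add_comm, ← h1]
    exact Equiv.sum_comp (Tuple.sort α) α
  have h3 := h _ hmono hsum
  rw [ip_chi, hco, hα'] at h3
  rcases mul_eq_zero.1 h3 with h4 | h4
  · exact (Equiv.Perm.sign (Tuple.sort α)).ne_zero (by exact_mod_cast h4)
  · exact hα h4

theorem psi_one_mul (β : Fin m → ℕ) (hβ : ∑ j, β j = n) :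
    (∏ j, (β j).factorial) * psi (toF β) (1 : Equiv.Perm (Fin n)) = n.factorial := by
  have := card_content (n := n) (toF β) (by simpa using hβ)
  simpa [psi] using this

theorem apply_one_eq_zero (φ : Equiv.Perm (Fin n) → ℂ) (h : frob n φ = 0) : φ 1 = 0 := by
  have hn : (n.factorial : ℂ) ≠ 0 := by exact_mod_cast n.factorial_ne_zero
  have h1 := congrArg (coeff (toF fun _ : Fin n => 1)) h
  unfold frob at h1
  rw [coeff_sum, Finset.sum_eq_single 1, coeff_C_mul, coeff_psum] at h1
  · have h2 := psi_one_mul (n := n) (fun _ : Fin n => 1) (by simp)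
    simp only [Nat.factorial_one, prod_const_one, one_mul] at h2
    rw [h2] at h1
    simpa [hn] using h1
  · intro σ _ hσ
    rw [coeff_C_mul, coeff_psum]
    have : psi (toF fun _ : Fin n => 1) σ = 0 := by
      unfold psi
      rw [Finset.card_eq_zero, Finset.filter_eq_empty_iff]
      rintro F - ⟨h2, h3⟩
      apply hσ
      ext i
      have h4 := DFunLike.congr_fun h3 (F i)
      rw [content_apply] at h4
      simp only [Finsupp.equivFunOnFinite_symm_apply_apply] at h4
      have h5 := Finset.card_le_one.1 h4.le (σ i) (by simpa using congrFun h2 i) i (by simp)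
      rw [h5]
      rfl
    rw [this]
    simp
  · simp

/-- the degree formula -/
theorem chi_one (l : Fin m → ℕ) (hs : ∑ j, l j = n + ∑ j, stair m j) :
    chi n l 1 * ∏ j, ((l j).factorial : ℂ) =
      n.factorial * ∏ i, ∏ j ∈ Ioi i, ((l j : ℂ) - l i) := by
  rw [← Matrix.det_vandermonde (fun j => (l j : ℂ)),
    Matrix.det_eval_matrixOfPolynomials_eq_det_vandermonde _ (fun j => descPochhammer ℂ j)
      (fun j => descPochhammer_natDegree ℂ j) (fun j => monic_descPochhammer ℂ j),
    ← Matrix.det_transpose, Matrix.det_apply', chi_eq, Finset.sum_mul, Finset.mul_sum]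
  refine Finset.sum_congr rfl fun w _ => ?_
  simp only [Matrix.transpose_apply, Matrix.of_apply, descPochhammer_eval_eq_descFactorial]
  rw [mul_left_comm, mul_assoc]
  congr 1
  by_cases hw : ∀ j, (w j : ℕ) ≤ l j
  · rw [if_pos hw]
    have hs' : ∑ j, (l j - w j) = n := by
      have e1 : ∑ j, (l j - w j) + ∑ j, (w j : ℕ) = ∑ j, l j := by
        rw [← Finset.sum_add_distrib]
        exact Finset.sum_congr rfl fun j _ => Nat.sub_add_cancel (hw j)
      have e2 : ∑ j, (w j : ℕ) = ∑ j, stair m j := Equiv.sum_comp w (stair m)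
      omega
    have h1 := psi_one_mul (n := n) _ hs'
    have h2 : ∏ j, (l j).factorial =
        (∏ j, (l j - w j).factorial) * ∏ j, (l j).descFactorial (w j) := by
      rw [← Finset.prod_mul_distrib]
      exact Finset.prod_congr rfl fun j _ => (Nat.factorial_mul_descFactorial (hw j)).symm
    rw [← h1]
    norm_cast
    rw [h2]
    ring
  · rw [if_neg hw]
    push Not at hw
    obtain ⟨j, hj⟩ := hw
    rw [Finset.prod_eq_zero (f := fun x => (((l x).descFactorial (w x) : ℕ) : ℂ)) (mem_univ j)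
      (by simp [Nat.descFactorial_of_lt hj])]
    simp

theorem cast_prod_sub (l : Fin m → ℕ) (hl : StrictMono l) :
    ((∏ i, ∏ j ∈ Ioi i, (l j - l i) : ℕ) : ℂ) = ∏ i, ∏ j ∈ Ioi i, ((l j : ℂ) - l i) := by
  push_cast
  refine Finset.prod_congr rfl fun i _ => Finset.prod_congr rfl fun j hj => ?_
  rw [Nat.cast_sub (hl (mem_Ioi.1 hj)).le]

/-- Frobenius' virtual characters are irreducible characters. -/
theorem chi_mem_irr (l : Fin m → ℕ) (hl : StrictMono l) (hs : ∑ j, l j = n + ∑ j, stair m j) :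
    chi n l ∈ irr (Equiv.Perm (Fin n)) := by
  obtain ⟨χ, hχ, h | h⟩ := irr_of_norm_one (chi_mem_virt l) (ip_chi_self l hl.injective hs)
  · exact h ▸ hχ
  · exfalso
    obtain ⟨V, -, rfl⟩ := hχ
    have h1 := chi_one l hs
    rw [h, ← cast_prod_sub l hl, Pi.neg_apply, FDRep.char_one] at h1
    have h2 : ((Module.finrank ℂ V * ∏ j, (l j).factorial +
        n.factorial * ∏ i, ∏ j ∈ Ioi i, (l j - l i) : ℕ) : ℂ) = 0 := by
      rw [Nat.cast_add, Nat.cast_mul, Nat.cast_mul, ← h1]
      push_cast
      ring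
    have h3 : 0 < n.factorial * ∏ i, ∏ j ∈ Ioi i, (l j - l i) :=
      Nat.mul_pos n.factorial_pos (Finset.prod_pos fun i _ => Finset.prod_pos fun j hj =>
        Nat.sub_pos_of_lt (hl (mem_Ioi.1 hj)))
    have h4 := Nat.cast_eq_zero.1 h2
    omega

theorem degree_formula (l : Fin m → ℕ) (hl : StrictMono l) (hs : ∑ j, l j = n + ∑ j, stair m j)
    (V : FDRep ℂ (Equiv.Perm (Fin n))) (hV : chi n l = V.character) :
    Module.finrank ℂ V * ∏ j, (l j).factorial = n.factorial * ∏ i, ∏ j ∈ Ioi i, (l j - l i) := by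
  have h1 := chi_one l hs
  rw [hV, ← cast_prod_sub l hl, FDRep.char_one] at h1
  exact_mod_cast h1

/-- Every strictly increasing exponent vector of the right size gives an irreducible
representation of the symmetric group, of the degree given by Frobenius' formula. -/
theorem exists_simple (l : Fin m → ℕ) (hl : StrictMono l) (hs : ∑ j, l j = n + ∑ j, stair m j) :
    ∃ V : FDRep ℂ (Equiv.Perm (Fin n)), Simple V ∧
      Module.finrank ℂ V * ∏ j, (l j).factorial =
        n.factorial * ∏ i, ∏ j ∈ Ioi i, (l j - l i) := by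
  obtain ⟨V, hV, h⟩ := chi_mem_irr l hl hs
  exact ⟨V, hV, degree_formula l hl hs V h⟩

/-- Every irreducible character of the symmetric group is one of Frobenius' characters. -/
theorem simple_eq_chi (V : FDRep ℂ (Equiv.Perm (Fin n))) [hV : Simple V] :
    ∃ l : Fin n → ℕ, StrictMono l ∧ ∑ j, l j = n + ∑ j, stair n j ∧ chi n l = V.character := by
  classical
  have hVi : V.character ∈ irr (Equiv.Perm (Fin n)) := ⟨V, hV, rfl⟩
  by_contra hcon
  push Not at hcon
  have h0 : V.character 1 = 0 := by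
    refine apply_one_eq_zero _ (frob_eq_zero _ fun l hl hs => ?_)
    rw [ip_irr hVi (chi_mem_irr l hl hs), if_neg (hcon l hl hs).symm]
  rw [FDRep.char_one, Nat.cast_eq_zero, Module.finrank_zero_iff] at h0
  have h1 := ip_irr hVi hVi
  have h2 : V.character = 0 := by
    ext g
    simp [FDRep.character, Subsingleton.elim (V.ρ g) 0]
  rw [if_pos rfl, h2] at h1
  simp [ip] at h1

/-- The degree of every irreducible representation of the symmetric group is given by
Frobenius' formula. -/
theorem simple_degree (V : FDRep ℂ (Equiv.Perm (Fin n))) [Simple V] :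
    ∃ l : Fin n → ℕ, StrictMono l ∧ ∑ j, l j = n + ∑ j, stair n j ∧
      Module.finrank ℂ V * ∏ j, (l j).factorial =
        n.factorial * ∏ i, ∏ j ∈ Ioi i, (l j - l i) := by
  obtain ⟨l, hl, hs, h⟩ := simple_eq_chi V
  exact ⟨l, hl, hs, degree_formula l hl hs V h⟩

end Pool.Agent.Lib.SymRep
end

-- merged part: Pool.Agent.Lib.SymRep.Hooks
section
/-!
Hook lengths through bead configurations (beta-sets).  A finite set `B ⊆ ℕ` of beads encodes a
partition whose cells correspond to the pairs `(b, x)` with `b ∈ B`, `x ∉ B`, `x < b`, the hook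
length of such a cell being `b - x`.
-/

namespace Pool.Agent.Lib.SymRep

open Finset CategoryTheory

/-- the gaps below `b` -/
def gaps (B : Finset ℕ) (b : ℕ) : Finset ℕ := (range b).filter (· ∉ B)

/-- the cells (bead, smaller gap) of a bead configuration -/
def cells (B : Finset ℕ) : Finset (ℕ × ℕ) :=
  (B ×ˢ range (B.sup id)).filter fun p => p.2 < p.1 ∧ p.2 ∉ B

/-- the product of all hook lengths -/
def hookProd (B : Finset ℕ) : ℕ := ∏ p ∈ cells B, (p.1 - p.2)

theorem mem_gaps {B : Finset ℕ} {b x : ℕ} : x ∈ gaps B b ↔ x < b ∧ x ∉ B := by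
  simp [gaps]

theorem mem_cells {B : Finset ℕ} {p : ℕ × ℕ} : p ∈ cells B ↔ p.1 ∈ B ∧ p.2 < p.1 ∧ p.2 ∉ B := by
  simp only [cells, mem_filter, mem_product, mem_range]
  constructor
  · rintro ⟨⟨h1, -⟩, h2⟩
    exact ⟨h1, h2⟩
  · rintro ⟨h1, h2⟩
    exact ⟨⟨h1, h2.1.trans_le (le_sup (f := id) h1)⟩, h2⟩

theorem prod_cells {M : Type*} [CommMonoid M] (B : Finset ℕ) (f : ℕ × ℕ → M) :
    ∏ p ∈ cells B, f p = ∏ b ∈ B, ∏ x ∈ gaps B b, f (b, x) := by
  refine Finset.prod_finset_product (cells B) B (gaps B) ?_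
  intro p
  rw [mem_cells, mem_gaps]

theorem card_cells (B : Finset ℕ) : (cells B).card = ∑ b ∈ B, (gaps B b).card := by
  rw [card_eq_sum_ones, Finset.sum_finset_product (cells B) B (gaps B)
    (fun p => by rw [mem_cells, mem_gaps])]
  simp

theorem hookProd_pos (B : Finset ℕ) : 0 < hookProd B :=
  Finset.prod_pos fun _ hp => Nat.sub_pos_of_lt (mem_cells.1 hp).2.1

theorem factorial_eq_prod_sub (b : ℕ) : b.factorial = ∏ x ∈ range b, (b - x) := by
  rw [← Nat.descFactorial_self, Nat.descFactorial_eq_prod_range]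

section FromVector

variable {m : ℕ} (l : Fin m → ℕ) (hl : StrictMono l)
include hl

theorem filter_mem_image (j : Fin m) :
    (range (l j)).filter (· ∈ univ.image l) = (Iio j).image l := by
  ext x
  simp only [mem_filter, mem_range, mem_image, mem_univ, true_and, mem_Iio]
  constructor
  · rintro ⟨h, i, rfl⟩
    exact ⟨i, hl.lt_iff_lt.1 h, rfl⟩
  · rintro ⟨i, h, rfl⟩
    exact ⟨hl h, i, rfl⟩

theorem card_cells_image : (cells (univ.image l)).card + ∑ j, stair m j = ∑ j, l j := by
  rw [card_cells, Finset.sum_image (hl.injective.injOn), ← Finset.sum_add_distrib]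
  refine Finset.sum_congr rfl fun j _ => ?_
  have h := Finset.card_filter_add_card_filter_not (s := range (l j)) (· ∈ univ.image l)
  rw [filter_mem_image l hl, card_image_of_injective _ hl.injective, Fin.card_Iio,
    card_range] at h
  rw [add_comm]
  exact h

theorem prod_factorial_eq :
    ∏ j, (l j).factorial = hookProd (univ.image l) * ∏ i, ∏ j ∈ Ioi i, (l j - l i) := by
  rw [hookProd, prod_cells, Finset.prod_image (hl.injective.injOn),
    Finset.prod_comm' (t' := univ) (s' := fun j => Iio j) (by simp), ← Finset.prod_mul_distrib]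
  refine Finset.prod_congr rfl fun j _ => ?_
  rw [factorial_eq_prod_sub, ← Finset.prod_filter_mul_prod_filter_not (range (l j))
    (· ∈ univ.image l), filter_mem_image l hl, Finset.prod_image (hl.injective.injOn), mul_comm]
  rfl

end FromVector

/-- The hook length formula: the degree of an irreducible representation of the symmetric group
times the product of the hook lengths of a partition of `n` is `n!`. -/
theorem simple_hook {n : ℕ} (V : FDRep ℂ (Equiv.Perm (Fin n))) [Simple V] :
    ∃ B : Finset ℕ, (cells B).card = n ∧ Module.finrank ℂ V * hookProd B = n.factorial := by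
  obtain ⟨l, hl, hs, h⟩ := simple_degree V
  refine ⟨univ.image l, ?_, ?_⟩
  · have := card_cells_image l hl
    omega
  · rw [prod_factorial_eq l hl, ← mul_assoc] at h
    refine Nat.eq_of_mul_eq_mul_right ?_ h
    exact Finset.prod_pos fun i _ => Finset.prod_pos fun j hj =>
      Nat.sub_pos_of_lt (hl (mem_Ioi.1 hj))

/-- The two-row partitions `(n - k, k)`. -/
theorem exists_two_row {n k : ℕ} (h : 2 * k ≤ n) :
    ∃ V : FDRep ℂ (Equiv.Perm (Fin n)), Simple V ∧
      Module.finrank ℂ V * (k.factorial * (n - k + 1).factorial) =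
        n.factorial * (n - 2 * k + 1) := by
  obtain ⟨V, hV, hd⟩ := exists_simple (n := n) (m := 2) ![k, n - k + 1]
    (by rw [Fin.strictMono_iff_lt_succ]; intro i; fin_cases i; simp; omega)
    (by simp [Fin.sum_univ_two]; omega)
  refine ⟨V, hV, ?_⟩
  have e0 : Ioi (0 : Fin 2) = {1} := by decide
  have e1 : Ioi (1 : Fin 2) = ∅ := by decide
  simp only [Fin.prod_univ_two, e0, e1, prod_singleton, prod_empty, mul_one] at hd
  simp only [Matrix.cons_val_zero, Matrix.cons_val_one, Matrix.cons_val_fin_one] at hd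
  rw [hd]
  congr 1
  omega

/-- the arm of a hook, corner included -/
def arm (B : Finset ℕ) (b x : ℕ) : Finset ℕ := (Ico x b).filter (· ∉ B)

/-- the leg of a hook -/
def leg (B : Finset ℕ) (b x : ℕ) : Finset ℕ := (Ico x b).filter (· ∈ B)

theorem card_leg_add_card_arm (B : Finset ℕ) (b x : ℕ) :
    (leg B b x).card + (arm B b x).card = b - x := by
  rw [leg, arm, Finset.card_filter_add_card_filter_not, Nat.card_Ico]

/-- the hook of a cell -/
def hook (B : Finset ℕ) (b x : ℕ) : Finset (ℕ × ℕ) :=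
  (leg B b x).image (fun y => (y, x)) ∪ (arm B b x).image (fun z => (b, z))

theorem mem_hook {B : Finset ℕ} {b x : ℕ} {p : ℕ × ℕ} :
    p ∈ hook B b x ↔ (p.2 = x ∧ x ≤ p.1 ∧ p.1 < b ∧ p.1 ∈ B) ∨
      (p.1 = b ∧ x ≤ p.2 ∧ p.2 < b ∧ p.2 ∉ B) := by
  obtain ⟨y, z⟩ := p
  simp only [hook, leg, arm, mem_union, mem_image, mem_filter, mem_Ico, Prod.mk.injEq]
  constructor
  · rintro (⟨a, ⟨⟨h1, h2⟩, h3⟩, rfl, rfl⟩ | ⟨a, ⟨⟨h1, h2⟩, h3⟩, rfl, rfl⟩)
    · exact Or.inl ⟨rfl, h1, h2, h3⟩
    · exact Or.inr ⟨rfl, h1, h2, h3⟩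
  · rintro (⟨rfl, h1, h2, h3⟩ | ⟨rfl, h1, h2, h3⟩)
    · exact Or.inl ⟨_, ⟨⟨h1, h2⟩, h3⟩, rfl, rfl⟩
    · exact Or.inr ⟨_, ⟨⟨h1, h2⟩, h3⟩, rfl, rfl⟩

theorem card_hook (B : Finset ℕ) (b x : ℕ) : (hook B b x).card = b - x := by
  rw [hook, card_union_of_disjoint, card_image_of_injective, card_image_of_injective,
    card_leg_add_card_arm]
  · intro a a' h; simpa using h
  · intro a a' h; simpa using h
  · rw [Finset.disjoint_left]
    simp only [mem_image, leg, arm, mem_filter, mem_Ico]
    rintro _ ⟨y, ⟨⟨-, h⟩, -⟩, rfl⟩ ⟨z, -, h'⟩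
    simp only [Prod.mk.injEq] at h'
    omega

theorem hook_subset {B : Finset ℕ} {b x : ℕ} (h : (b, x) ∈ cells B) : hook B b x ⊆ cells B := by
  rw [mem_cells] at h
  intro p hp
  rw [mem_cells]
  rcases mem_hook.1 hp with ⟨h1, h2, h3, h4⟩ | ⟨h1, h2, h3, h4⟩
  · refine ⟨h4, ?_, h1 ▸ h.2.2⟩
    rcases h2.lt_or_eq with h5 | h5
    · omega
    · exact absurd (h5 ▸ h4) h.2.2
  · exact ⟨h1 ▸ h.1, h1 ▸ h3, h4⟩

theorem hook_le {B : Finset ℕ} {p : ℕ × ℕ} (h : p ∈ cells B) : p.1 - p.2 ≤ (cells B).card := by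
  rw [← card_hook B]
  exact card_le_card (hook_subset h)

theorem two_hooks {B : Finset ℕ} {b x b' x' : ℕ} (h : (b, x) ∈ cells B) (h' : (b', x') ∈ cells B)
    (hb : b ≠ b') (hx : x ≠ x') : (b - x) + (b' - x') ≤ (cells B).card + 2 := by
  rw [← card_hook B, ← card_hook B, ← card_union_add_card_inter]
  refine add_le_add (card_le_card (union_subset (hook_subset h) (hook_subset h'))) ?_
  refine le_trans (card_le_card (t := {(b, x'), (b', x)}) ?_) card_le_two
  intro p hp
  obtain ⟨y, z⟩ := p
  simp only [mem_inter, mem_hook] at hp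
  simp only [mem_insert, mem_singleton, Prod.mk.injEq]
  omega

theorem same_row {B : Finset ℕ} {b x x' : ℕ} (h : (b, x) ∈ cells B) (h' : (b, x') ∈ cells B)
    (hx : x ≠ x') : (b - x) + (b - x') ≤ (cells B).card + (gaps B b).card := by
  have h1 : (hook B b x).card + ((leg B b x').image fun y => (y, x')).card ≤ (cells B).card := by
    rw [← card_union_of_disjoint]
    · refine card_le_card (union_subset (hook_subset h) ?_)
      exact subset_trans subset_union_left (hook_subset h')
    · rw [Finset.disjoint_right]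
      simp only [mem_image, leg, mem_filter, mem_Ico, mem_hook]
      rintro _ ⟨y, ⟨⟨-, h3⟩, -⟩, rfl⟩
      simp only
      omega
  rw [card_hook, card_image_of_injective _ (fun a a' h => by simpa using h)] at h1
  have h2 := card_leg_add_card_arm B b x'
  have h3 : (arm B b x').card ≤ (gaps B b).card := by
    refine card_le_card fun z hz => ?_
    simp only [arm, mem_filter, mem_Ico] at hz
    exact mem_gaps.2 ⟨hz.1.2, hz.2⟩
  omega

/-- the transposed bead configuration -/
def transp (B : Finset ℕ) : Finset ℕ := (range (B.sup id + 1)).filter fun y => B.sup id - y ∉ B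

theorem mem_cells_transp {B : Finset ℕ} {p : ℕ × ℕ} (h : p ∈ cells B) :
    (B.sup id - p.2, B.sup id - p.1) ∈ cells (transp B) := by
  rw [mem_cells] at h ⊢
  have h1 : p.1 ≤ B.sup id := le_sup (f := id) h.1
  simp only [transp, mem_filter, mem_range, not_and, not_not]
  refine ⟨⟨by omega, ?_⟩, by omega, fun _ => ?_⟩
  · rw [Nat.sub_sub_self (by omega)]
    exact h.2.2
  · rw [Nat.sub_sub_self h1]
    exact h.1

theorem prod_cells_transp {M : Type*} [CommMonoid M] (B : Finset ℕ) (f : ℕ → M) :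
    ∏ p ∈ cells (transp B), f (p.1 - p.2) = ∏ p ∈ cells B, f (p.1 - p.2) := by
  symm
  refine Finset.prod_bij' (fun p _ => (B.sup id - p.2, B.sup id - p.1))
    (fun p _ => (B.sup id - p.2, B.sup id - p.1)) (fun p hp => mem_cells_transp hp) ?_ ?_ ?_ ?_
  · intro p hp
    rw [mem_cells] at hp ⊢
    simp only [transp, mem_filter, mem_range, not_and, not_not] at hp
    exact ⟨hp.2.2 (by omega), by simp only; omega, hp.1.2⟩
  · intro p hp
    rw [mem_cells] at hp
    have h1 : p.1 ≤ B.sup id := le_sup (f := id) hp.1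
    ext <;> simp only <;> omega
  · intro p hp
    rw [mem_cells] at hp
    simp only [transp, mem_filter, mem_range] at hp
    ext <;> simp only <;> omega
  · intro p hp
    rw [mem_cells] at hp
    have h1 : p.1 ≤ B.sup id := le_sup (f := id) hp.1
    congr 1
    simp only
    omega

theorem hookProd_transp (B : Finset ℕ) : hookProd (transp B) = hookProd B :=
  prod_cells_transp B id

theorem card_cells_transp (B : Finset ℕ) : (cells (transp B)).card = (cells B).card := by
  have := prod_cells_transp B (fun _ => Multiplicative.ofAdd (1 : ℕ))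
  simpa using this

theorem two_mul_sum_card_ge (G : Finset ℕ) :
    2 * ∑ x ∈ G, (G.filter (x ≤ ·)).card = G.card * (G.card + 1) := by
  have h1 : ∑ x ∈ G, (G.filter (x ≤ ·)).card = ∑ x ∈ G, (G.filter (· ≤ x)).card := by
    simp only [card_filter]
    exact Finset.sum_comm
  rw [two_mul]
  nth_rewrite 2 [h1]
  rw [← Finset.sum_add_distrib, ← smul_eq_mul, ← Finset.sum_const]
  refine Finset.sum_congr rfl fun x hx => ?_
  rw [← card_union_add_card_inter]
  congr 1
  · congr 1
    ext z
    simp only [mem_union, mem_filter]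
    constructor
    · rintro (h | h) <;> exact h.1
    · intro h
      rcases le_total x z with h' | h'
      · exact Or.inl ⟨h, h'⟩
      · exact Or.inr ⟨h, h'⟩
  · rw [card_eq_one]
    refine ⟨x, ?_⟩
    ext z
    simp only [mem_inter, mem_filter, mem_singleton]
    constructor
    · rintro ⟨⟨-, h1⟩, -, h2⟩
      omega
    · rintro rfl
      exact ⟨⟨hx, le_rfl⟩, hx, le_rfl⟩

/-- Removing the first row: with `k` cells outside it, the degree is `∏_{c ∈ C} (n - c) / H₀`
for a set `C` of `k` numbers with sum `k (k + 1) / 2`. -/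
theorem row_formula {B : Finset ℕ} {b n d : ℕ} (hb : b ∈ B) (hn : (cells B).card = n)
    (hd : d * hookProd B = n.factorial) :
    ∃ (k H : ℕ) (C : Finset ℕ), k + (gaps B b).card ≤ n ∧ C.card = k ∧
      2 * ∑ c ∈ C, c = k * (k + 1) ∧ (∀ c ∈ C, c < n) ∧ 0 < H ∧ H ≤ k ^ k ∧
      (∀ p, p.Prime → p ∣ H → p ≤ k) ∧ d * H = ∏ c ∈ C, (n - c) := by
  obtain ⟨a, ha, hmax⟩ := B.exists_max_image id ⟨b, hb⟩
  simp only [id] at hmax
  set B₀ := B.erase a with hB₀
  have hgaps : ∀ y ∈ B₀, gaps B₀ y = gaps B y := by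
    intro y hy
    have := hmax y (mem_of_mem_erase hy)
    ext x
    simp only [mem_gaps, hB₀, mem_erase, not_and]
    constructor
    · rintro ⟨h1, h2⟩
      exact ⟨h1, h2 (by omega)⟩
    · rintro ⟨h1, h2⟩
      exact ⟨h1, fun _ => h2⟩
  set G := gaps B a with hG
  set k := (cells B₀).card with hk
  have hsize : G.card + k = n := by
    rw [← hn, hk, card_cells, card_cells, ← Finset.add_sum_erase B _ ha]
    congr 1
    exact Finset.sum_congr rfl fun y hy => by rw [hgaps y hy]
  have hprod : hookProd B = (∏ x ∈ G, (a - x)) * hookProd B₀ := by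
    rw [hookProd, hookProd, prod_cells, prod_cells, ← Finset.mul_prod_erase B _ ha]
    congr 1
    exact Finset.prod_congr rfl fun y hy => by rw [hgaps y hy]
  have hinj : Set.InjOn (fun x => a - x) G := by
    intro x hx y hy h
    have h1 := (mem_gaps.1 hx).1
    have h2 := (mem_gaps.1 hy).1
    simp only at h
    omega
  set R := G.image (fun x => a - x) with hR
  have hRsub : R ⊆ Icc 1 n := by
    intro y hy
    obtain ⟨x, hx, rfl⟩ := mem_image.1 hy
    have h1 := mem_gaps.1 hx
    have h2 := hook_le (B := B) (p := (a, x)) (mem_cells.2 ⟨ha, h1⟩)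
    rw [mem_Icc]
    simp only at h2
    omega
  set M := Icc 1 n \ R with hM
  have hMn : ∀ y ∈ M, 1 ≤ y ∧ y ≤ n := fun y hy => mem_Icc.1 (mem_sdiff.1 hy).1
  have hinj' : Set.InjOn (fun y => n - y) M := by
    intro x hx y hy h
    have h1 := hMn x hx
    have h2 := hMn y hy
    simp only at h
    omega
  have hRcard : R.card = G.card := card_image_of_injOn hinj
  have hMcard : M.card = k := by
    rw [hM, card_sdiff_of_subset hRsub, hRcard, Nat.card_Icc]
    omega
  have hsumR : 2 * ∑ y ∈ R, y = G.card * (G.card + 1) + 2 * k := by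
    clear * - R G k a hR hinj B B₀ hk hB₀ hG hmax n d
    rw [hR, Finset.sum_image hinj, ← two_mul_sum_card_ge, ← mul_add]
    congr 1
    have e1 : k = ∑ x ∈ G, (leg B a x).card := by
      rw [hk, card_eq_sum_ones, Finset.sum_finset_product_right (cells B₀) G (leg B a)]
      · simp
      · intro p
        simp only [mem_cells, hB₀, hG, mem_erase, mem_gaps, leg, mem_filter, mem_Ico, not_and]
        constructor
        · rintro ⟨⟨h1, h2⟩, h3, h4⟩
          have := hmax _ h2
          exact ⟨⟨by omega, h4 (by omega)⟩, ⟨h3.le, by omega⟩, h2⟩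
        · rintro ⟨⟨h1, h2⟩, ⟨h3, h4⟩, h5⟩
          refine ⟨⟨by omega, h5⟩, ?_, fun _ => h2⟩
          rcases h3.lt_or_eq with h6 | h6
          · exact h6
          · exact absurd (h6 ▸ h5) h2
    rw [e1, ← Finset.sum_add_distrib]
    refine Finset.sum_congr rfl fun x _ => ?_
    rw [← card_leg_add_card_arm B a x, add_comm]
    congr 2
    ext z
    simp only [arm, hG, mem_filter, mem_Ico, mem_gaps]
    tauto
  have hsumI : 2 * ∑ y ∈ Icc 1 n, y = n * (n + 1) := by
    clear * - n B d hn a hsize hRcard hMcard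
    have := Finset.sum_range_id_mul_two (n + 1)
    rw [Finset.range_eq_Ico, Finset.sum_eq_sum_Ico_succ_bot (by omega)] at this
    rw [← Finset.Ico_add_one_right_eq_Icc]
    simp only [zero_add, add_tsub_cancel_right] at this
    linarith
  have hsumM : ∑ y ∈ M, y + ∑ y ∈ R, y = ∑ y ∈ Icc 1 n, y := Finset.sum_sdiff hRsub
  have hsumC : ∑ y ∈ M, (n - y) + ∑ y ∈ M, y = k * n := by
    rw [← Finset.sum_add_distrib, ← hMcard, ← smul_eq_mul, ← Finset.sum_const]
    exact Finset.sum_congr rfl fun y hy => Nat.sub_add_cancel (hMn y hy).2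
  refine ⟨k, hookProd B₀, M.image (fun y => n - y), ?_, ?_, ?_, ?_, hookProd_pos _, ?_, ?_, ?_⟩
  · have : (gaps B b).card ≤ G.card := by
      refine card_le_card fun x hx => ?_
      have := hmax b hb
      rw [mem_gaps] at hx ⊢
      exact ⟨by omega, hx.2⟩
    omega
  · rw [card_image_of_injOn hinj', hMcard]
  · rw [Finset.sum_image hinj']
    subst hsize
    clear * - M G k R hsumR hsumI hsumM hsumC; nlinarith
  · intro c hc
    obtain ⟨y, hy, rfl⟩ := mem_image.1 hc
    have := hMn y hy
    omega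
  · exact Finset.prod_le_pow_card _ _ _ fun p hp => hook_le hp
  · intro p hp hpd
    obtain ⟨q, hq, hpq⟩ := (Prime.dvd_finsetProd_iff hp.prime _).1 hpd
    exact (Nat.le_of_dvd (Nat.sub_pos_of_lt (mem_cells.1 hq).2.1) hpq).trans (hook_le hq)
  · have e1 : ∏ c ∈ M.image (fun y => n - y), (n - c) = ∏ y ∈ M, y := by
      rw [Finset.prod_image hinj']
      exact Finset.prod_congr rfl fun y hy => Nat.sub_sub_self (hMn y hy).2
    have e2 : (∏ y ∈ M, y) * ∏ y ∈ R, y = n.factorial := by
      rw [hM, Finset.prod_sdiff hRsub, ← Finset.Ico_add_one_right_eq_Icc,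
        Finset.prod_Ico_id_eq_factorial]
    have e3 : ∏ y ∈ R, y = ∏ x ∈ G, (a - x) := Finset.prod_image hinj
    have e4 : 0 < ∏ y ∈ R, y := Finset.prod_pos fun y hy => (mem_Icc.1 (hRsub hy)).1
    rw [e1]
    refine Nat.eq_of_mul_eq_mul_right e4 ?_
    rw [e2, ← hd, hprod, e3]
    ring

/-- If two large primes do not divide the degree, the partition is close to a row or a column. -/
theorem near_row {n : ℕ} (V : FDRep ℂ (Equiv.Perm (Fin n))) [Simple V] {t₁ t₂ : ℕ}
    (h₁ : t₁.Prime) (h₂ : t₂.Prime) (hlt : t₂ < t₁) (hle : t₁ ≤ n) (hbig : n + 2 < 2 * t₂)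
    (hd₁ : ¬ t₁ ∣ Module.finrank ℂ V) (hd₂ : ¬ t₂ ∣ Module.finrank ℂ V) :
    ∃ (k H : ℕ) (C : Finset ℕ), k + t₁ + t₂ ≤ 2 * n ∧ C.card = k ∧
      2 * ∑ c ∈ C, c = k * (k + 1) ∧ (∀ c ∈ C, c < n) ∧ 0 < H ∧ H ≤ k ^ k ∧
      (∀ p, p.Prime → p ∣ H → p ≤ k) ∧ Module.finrank ℂ V * H = ∏ c ∈ C, (n - c) := by
  obtain ⟨B, hn, hd⟩ := simple_hook V
  have hcell : ∀ t, t.Prime → t ≤ n → n < 2 * t → ¬ t ∣ Module.finrank ℂ V →
      ∃ p ∈ cells B, p.1 - p.2 = t := by
    intro t ht htn hnt htd
    have h1 : t ∣ hookProd B := by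
      have : t ∣ Module.finrank ℂ V * hookProd B := hd ▸ (ht.dvd_factorial.2 htn)
      exact (ht.dvd_mul.1 this).resolve_left htd
    obtain ⟨p, hp, c, hc⟩ := (Prime.dvd_finsetProd_iff ht.prime _).1 h1
    refine ⟨p, hp, ?_⟩
    have h2 := hook_le hp
    have h3 := Nat.sub_pos_of_lt (mem_cells.1 hp).2.1
    rw [hn, hc] at h2
    rw [hc] at h3 ⊢
    obtain rfl : c = 1 := by
      clear * - p t n c hnt hc h2 h3
      rcases c with _ | _ | c
      · simp at h3
      · rfl
      · nlinarith
    simp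
  obtain ⟨⟨b, x⟩, hp, e⟩ := hcell t₁ h₁ hle (by omega) hd₁
  obtain ⟨⟨b', x'⟩, hp', e'⟩ := hcell t₂ h₂ (by omega) (by omega) hd₂
  simp only at e e'
  by_cases hb : b = b'
  · subst hb
    have h3 := same_row hp hp' (by omega)
    obtain ⟨k, H, C, h4, h5⟩ := row_formula (mem_cells.1 hp).1 hn hd
    simp only at h4
    exact ⟨k, H, C, by omega, h5⟩
  by_cases hx : x = x'
  · subst hx
    have hq := mem_cells_transp hp
    have hq' := mem_cells_transp hp'
    have hb1 : b ≤ B.sup id := le_sup (f := id) (mem_cells.1 hp).1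
    have hb2 : b' ≤ B.sup id := le_sup (f := id) (mem_cells.1 hp').1
    have hx1 := (mem_cells.1 hp).2.1
    have hx2 := (mem_cells.1 hp').2.1
    simp only at hq hq' hx1 hx2
    have h3 := same_row hq hq' (by omega)
    rw [card_cells_transp] at h3
    obtain ⟨k, H, C, h4, h5⟩ := row_formula (mem_cells.1 hq).1
      ((card_cells_transp B).trans hn) ((hookProd_transp B).symm ▸ hd)
    simp only at h4
    exact ⟨k, H, C, by omega, h5⟩
  · have := two_hooks hp hp' hb hx
    omega

end Pool.Agent.Lib.SymRep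
end
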