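import Mathlib

/-!
Virtual characters of a finite group: every character is a sum of irreducible ones, and a virtual
character of norm one is, up to sign, irreducible.
-/

namespace Pool.Agent.Lib.SymRep

open CategoryTheory Module

variable {G : Type} [Group G] [Fintype G]

/-- The irreducible complex characters of `G`. -/
def irr (G : Type) [Group G] : Set (G → ℂ) :=
  {χ | ∃ V : FDRep ℂ G, Simple V ∧ χ = V.character}

/-- The scalar product of class functions. -/
noncomputable def ip (φ ψ : G → ℂ) : ℂ := (Nat.card G : ℂ)⁻¹ * ∑ g, φ g * ψ g⁻¹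

/-- The virtual characters of `G`. -/
abbrev virt (G : Type) [Group G] : Submodule ℤ (G → ℂ) := Submodule.span ℤ (irr G)

theorem card_ne_zero : (Nat.card G : ℂ) ≠ 0 := by
  exact_mod_cast (Nat.card_pos (α := G)).ne'

open scoped Classical in
theorem ip_irr {χ χ' : G → ℂ} (h : χ ∈ irr G) (h' : χ' ∈ irr G) :
    ip χ χ' = if χ = χ' then 1 else 0 := by
  obtain ⟨V, hV, rfl⟩ := h
  obtain ⟨W, hW, rfl⟩ := h'
  have := invertibleOfNonzero (card_ne_zero (G := G))
  have h1 := FDRep.char_orthonormal V W
  have h2 := FDRep.char_orthonormal V V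
  unfold ip
  by_cases hiso : Nonempty (V ≅ W)
  · obtain ⟨i⟩ := hiso
    rw [h1, if_pos ⟨i⟩, if_pos (FDRep.char_iso i)]
  · rw [h1, if_neg hiso, if_neg]
    intro he
    rw [← he, h2, if_pos ⟨Iso.refl V⟩, if_neg hiso] at h1
    exact one_ne_zero h1

theorem char_mem_irr {V : Type} [AddCommGroup V] [Module ℂ V] [FiniteDimensional ℂ V]
    (ρ : Representation ℂ G V) [ρ.IsIrreducible] : ρ.character ∈ irr G := by
  have := invertibleOfNonzero (card_ne_zero (G := G))
  refine ⟨FDRep.of ρ, ?_, rfl⟩
  rw [FDRep.simple_iff_char_is_norm_one]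
  have h := Representation.char_orthonormal ρ ρ
  rw [if_pos ⟨Representation.Equiv.refl ρ⟩] at h
  have h' : (Nat.card G : ℂ) * ((Nat.card G : ℂ)⁻¹ * ∑ g : G, ρ.character g * ρ.character g⁻¹) =
      Nat.card G := by rw [h, mul_one]
  rw [← mul_assoc, mul_inv_cancel₀ card_ne_zero, one_mul] at h'
  exact h'

omit [Fintype G] in
theorem char_add_of_isCompl {V : Type} [AddCommGroup V] [Module ℂ V] [FiniteDimensional ℂ V]
    (ρ : Representation ℂ G V) (p q : Subrepresentation ρ)
    (h : IsCompl p.toSubmodule q.toSubmodule) :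
    ρ.character = p.toRepresentation.character + q.toRepresentation.character := by
  ext g
  let N : Bool → Submodule ℂ V := fun b => cond b p.toSubmodule q.toSubmodule
  have hN : DirectSum.IsInternal N :=
    (DirectSum.isInternal_submodule_iff_isCompl N (i := true) (j := false) (by simp)
      (by ext b; cases b <;> simp)).2 h
  have hf : ∀ i, Set.MapsTo (ρ g) (N i) (N i) := by
    intro i
    cases i
    · exact fun v hv => q.apply_mem_toSubmodule g hv
    · exact fun v hv => p.apply_mem_toSubmodule g hv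
  have := LinearMap.trace_eq_sum_trace_restrict hN hf
  rw [Fintype.sum_bool] at this
  exact this

theorem char_mem_virt {V : Type} [AddCommGroup V] [Module ℂ V] [FiniteDimensional ℂ V]
    (ρ : Representation ℂ G V) : ρ.character ∈ virt G := by
  induction hn : finrank ℂ V using Nat.strong_induction_on generalizing V with
  | _ n ih =>
  have : NeZero (Nat.card G : ℂ) := ⟨card_ne_zero⟩
  by_cases hirr : ρ.IsIrreducible
  · exact Submodule.subset_span (char_mem_irr ρ)
  by_cases htriv : Subsingleton V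
  · have : ρ.character = 0 := by
      ext g
      simp [Representation.character, Subsingleton.elim (ρ g) 0]
    rw [this]
    exact zero_mem _
  rw [not_subsingleton_iff_nontrivial] at htriv
  have hnt : Nontrivial (Subrepresentation ρ) := by
    refine ⟨⊥, ⊤, fun h => ?_⟩
    have := congrArg Subrepresentation.toSubmodule h
    exact bot_ne_top (α := Submodule ℂ V) this
  obtain ⟨p, hp0, hp1⟩ : ∃ p : Subrepresentation ρ, p ≠ ⊥ ∧ p ≠ ⊤ := by
    by_contra hcon
    push Not at hcon
    exact hirr ⟨fun a => by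
      by_cases ha : a = ⊥
      · exact Or.inl ha
      · exact Or.inr (hcon a ha)⟩
  obtain ⟨q, hq⟩ := exists_isCompl p
  have hc : IsCompl p.toSubmodule q.toSubmodule := by
    refine ⟨?_, ?_⟩
    · rw [disjoint_iff, ← Subrepresentation.toSubmodule_inf, hq.inf_eq_bot]; rfl
    · rw [codisjoint_iff, ← Subrepresentation.toSubmodule_sup, hq.sup_eq_top]; rfl
  have hp1' : p.toSubmodule ≠ ⊤ := fun h => hp1 (Subrepresentation.toSubmodule_injective h)
  have hq1' : q.toSubmodule ≠ ⊤ := by
    intro h
    apply hp0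
    apply Subrepresentation.toSubmodule_injective
    have := hc.inf_eq_bot
    rw [h, inf_top_eq] at this
    exact this
  rw [char_add_of_isCompl ρ p q hc]
  exact add_mem (ih _ (hn ▸ Submodule.finrank_lt hp1') _ rfl)
    (ih _ (hn ▸ Submodule.finrank_lt hq1') _ rfl)

theorem ip_sum_left {ι : Type*} (s : Finset ι) (c : ι → ℂ) (φ : ι → G → ℂ) (ψ : G → ℂ) :
    ip (∑ i ∈ s, c i • φ i) ψ = ∑ i ∈ s, c i * ip (φ i) ψ := by
  unfold ip
  simp only [Finset.sum_apply, Pi.smul_apply, smul_eq_mul, Finset.sum_mul, Finset.mul_sum]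
  rw [Finset.sum_comm]
  refine Finset.sum_congr rfl fun i _ => Finset.sum_congr rfl fun g _ => by ring

theorem ip_sum_right {ι : Type*} (s : Finset ι) (c : ι → ℂ) (φ : ι → G → ℂ) (ψ : G → ℂ) :
    ip ψ (∑ i ∈ s, c i • φ i) = ∑ i ∈ s, c i * ip ψ (φ i) := by
  unfold ip
  simp only [Finset.sum_apply, Pi.smul_apply, smul_eq_mul, Finset.mul_sum]
  rw [Finset.sum_comm]
  refine Finset.sum_congr rfl fun i _ => Finset.sum_congr rfl fun g _ => by ring

theorem ip_neg_left (φ ψ : G → ℂ) : ip (-φ) ψ = - ip φ ψ := by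
  simp [ip]

/-- A virtual character of norm one is irreducible up to sign. -/
theorem irr_of_norm_one {φ : G → ℂ} (h : φ ∈ virt G) (h1 : ip φ φ = 1) :
    ∃ χ ∈ irr G, φ = χ ∨ φ = -χ := by
  classical
  obtain ⟨c, hc, rfl⟩ := Submodule.mem_span_set.1 h
  have hs : c.sum (fun χ r => r • χ) = ∑ χ ∈ c.support, (c χ : ℂ) • χ := by
    refine Finset.sum_congr rfl fun χ _ => ?_
    rw [Int.cast_smul_eq_zsmul]
  rw [hs] at h1 ⊢
  rw [ip_sum_left] at h1
  have h2 : ∑ χ ∈ c.support, (c χ : ℂ) * (c χ : ℂ) = 1 := by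
    rw [← h1]
    refine Finset.sum_congr rfl fun χ hχ => ?_
    rw [ip_sum_right, Finset.sum_eq_single χ]
    · rw [ip_irr (hc hχ) (hc hχ), if_pos rfl, mul_one]
    · intro χ' hχ' hne
      rw [ip_irr (hc hχ) (hc hχ'), if_neg (Ne.symm hne), mul_zero]
    · intro h; exact absurd hχ h
  have h3 : ∑ χ ∈ c.support, c χ * c χ = 1 := by exact_mod_cast h2
  have hpos : ∀ χ ∈ c.support, 1 ≤ c χ * c χ := fun χ hχ =>
    mul_self_pos.2 (Finsupp.mem_support_iff.1 hχ)
  have hcard : c.support.card ≤ 1 := by
    have := Finset.card_nsmul_le_sum c.support _ _ hpos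
    rw [h3] at this
    simpa using this
  have hne : c.support.Nonempty := by
    rw [Finset.nonempty_iff_ne_empty]
    intro h0
    rw [h0] at h3
    simp at h3
  obtain ⟨χ, hχ⟩ : ∃ χ, c.support = {χ} :=
    Finset.card_eq_one.1 (le_antisymm hcard hne.card_pos)
  rw [hχ, Finset.sum_singleton] at h3 ⊢
  refine ⟨χ, hc (by rw [hχ]; simp), ?_⟩
  rcases Int.eq_one_or_neg_one_of_mul_eq_one h3 with h | h
  · left; rw [h]; simp
  · right; rw [h]; simp

/-- Permutation characters are virtual characters. -/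
theorem perm_char_mem_virt {X : Type} [Fintype X] [DecidableEq X] (a : G →* Equiv.Perm X) :
    (fun g => ((Finset.univ.filter fun x => a g x = x).card : ℂ)) ∈ virt G := by
  let ρ : Representation ℂ G (X → ℂ) :=
    { toFun := fun g => LinearMap.funLeft ℂ ℂ (a g⁻¹)
      map_one' := by ext; simp
      map_mul' := fun g h => by ext; simp }
  convert char_mem_virt ρ using 1
  ext g
  rw [Representation.character, LinearMap.trace_eq_matrix_trace ℂ (Pi.basisFun ℂ X),
    Matrix.trace, Finset.card_filter]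
  push_cast
  refine Finset.sum_congr rfl fun x _ => ?_
  simp only [Matrix.diag, LinearMap.toMatrix_apply, Pi.basisFun_apply, Pi.basisFun_repr, ρ,
    MonoidHom.coe_mk, OneHom.coe_mk, LinearMap.funLeft_apply, Pi.single_apply, map_inv]
  congr 1
  rw [Equiv.Perm.inv_eq_iff_eq]
  exact propext eq_comm

end Pool.Agent.Lib.SymRep
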